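import Pool.Agent.H45.Skew.Final

/-!
# Totally skew embeddings: the product of the real projective line and the real projective plane

Points of a product of real projective spaces are given by homogeneous coordinates. A map `φ` of
the product is of class `C^m` if and only if it is so in homogeneous coordinates (on the open set
where no coordinate vector vanishes), and its differential at a point is the differential in
homogeneous coordinates, modulo the radial directions.
-/

set_option autoImplicit false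

namespace Pool.Agent.Results.MP_dfaa5d_gt.LineTimesPlane

/-- The product of the real projective spaces of dimensions `n i`. -/
abbrev ProdRP {k : ℕ} (n : Fin k → ℕ) : Type := ∀ i, Projectivization ℝ (Fin (n i + 1) → ℝ)

/-- Tuples of coordinate vectors. -/
abbrev Coord {k : ℕ} (n : Fin k → ℕ) : Type := ∀ i, Fin (n i + 1) → ℝ

/-- The point of the product with homogeneous coordinates `x`. -/
noncomputable def point {k : ℕ} {n : Fin k → ℕ} (x : Coord n) (hx : ∀ i, x i ≠ 0) : ProdRP n :=
  fun i => Projectivization.mk ℝ (x i) (hx i)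

open Classical in
/-- The map `φ` in homogeneous coordinates (with value `0` if some coordinate vector is `0`). -/
noncomputable def inCoord {k N : ℕ} {n : Fin k → ℕ} (φ : ProdRP n → EuclideanSpace ℝ (Fin N))
    (x : Coord n) : EuclideanSpace ℝ (Fin N) :=
  if hx : ∀ i, x i ≠ 0 then φ (point x hx) else 0

/-- The affine tangent space of `φ` at the point with homogeneous coordinates `x`: the translate
by the value of `φ` of the image of the differential. -/
noncomputable def affineTangent {k N : ℕ} {n : Fin k → ℕ}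
    (φ : ProdRP n → EuclideanSpace ℝ (Fin N)) (x : Coord n) :
    AffineSubspace ℝ (EuclideanSpace ℝ (Fin N)) :=
  AffineSubspace.mk' (inCoord φ x) (LinearMap.range (fderiv ℝ (inCoord φ) x).toLinearMap)

/-- Skew affine subspaces: they are disjoint and their directions meet only in `0`. -/
def Skew {N : ℕ} (A B : AffineSubspace ℝ (EuclideanSpace ℝ (Fin N))) : Prop :=
  (A : Set (EuclideanSpace ℝ (Fin N))) ∩ B = ∅ ∧ A.direction ⊓ B.direction = ⊥

/-- `φ` is a totally skew embedding of class `C^m` of the product of the real projective spaces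
of dimensions `n i`: an injective immersion of class `C^m` (the product is compact) whose affine
tangent spaces at points with different images are skew. -/
structure IsTotallySkewEmbedding (m : WithTop ℕ∞) {k N : ℕ} (n : Fin k → ℕ)
    (φ : ProdRP n → EuclideanSpace ℝ (Fin N)) : Prop where
  smooth : ContDiffOn ℝ m (inCoord φ) {x | ∀ i, x i ≠ 0}
  injective : Function.Injective φ
  immersion : ∀ x : Coord n, (∀ i, x i ≠ 0) → ∀ u : Coord n, fderiv ℝ (inCoord φ) x u = 0 →
    ∀ i, ∃ c : ℝ, u i = c • x i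
  skew : ∀ (x y : Coord n) (hx : ∀ i, x i ≠ 0) (hy : ∀ i, y i ≠ 0),
    φ (point x hx) ≠ φ (point y hy) → Skew (affineTangent φ x) (affineTangent φ y)

section Proof

open Pool.Agent.H45.Skew

private theorem inCoord_eq {k N : ℕ} {n : Fin k → ℕ} (φ : ProdRP n → EuclideanSpace ℝ (Fin N))
    {x : Coord n} (hx : ∀ i, x i ≠ 0) : inCoord φ x = φ (point x hx) := by
  unfold inCoord
  rw [dif_pos hx]

private theorem inCoord_congr {k N : ℕ} {n : Fin k → ℕ}
    (φ : ProdRP n → EuclideanSpace ℝ (Fin N)) {x y : Coord n} (hx : ∀ i, x i ≠ 0)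
    (hy : ∀ i, y i ≠ 0) (h : ∀ i, y i = x i ∨ y i = -x i) : inCoord φ y = inCoord φ x := by
  rw [inCoord_eq φ hx, inCoord_eq φ hy]
  congr 1
  funext i
  unfold point
  rw [Projectivization.mk_eq_mk_iff']
  rcases h i with h | h
  · exact ⟨1, by rw [h, one_smul]⟩
  · exact ⟨-1, by rw [h, neg_one_smul]⟩

/-- The dimensions. -/
abbrev dims : Fin 2 → ℕ := ![1, 2]

/-- The parametrisation. -/
noncomputable def par (x : ℝ × ℝ × ℝ) : Coord dims := fun i j =>
  vc (j : ℕ) (if i = 0 then x.1 else x.2.1) (if i = 0 then 0 else x.2.2)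

/-- Its derivative at `s = 0`. -/
noncomputable def dpar (x : ℝ × ℝ) (a : ℝ × ℝ × ℝ) : Coord dims := fun i j =>
  dvc (j : ℕ) (if i = 0 then x.1 else x.2) (if i = 0 then a.1 else a.2.1)
    (if i = 0 then 0 else a.2.2)

private theorem par_zero (x : ℝ × ℝ × ℝ) (j : Fin 2) : par x 0 j = vc (j : ℕ) x.1 0 := rfl

private theorem par_one (x : ℝ × ℝ × ℝ) (j : Fin 3) : par x 1 j = vc (j : ℕ) x.2.1 x.2.2 := rfl

private theorem dpar_zero (x : ℝ × ℝ) (a : ℝ × ℝ × ℝ) (j : Fin 2) :
    dpar x a 0 j = dvc (j : ℕ) x.1 a.1 0 := rfl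

private theorem dpar_one (x : ℝ × ℝ) (a : ℝ × ℝ × ℝ) (j : Fin 3) :
    dpar x a 1 j = dvc (j : ℕ) x.2 a.2.1 a.2.2 := rfl

private theorem par_ne (x : ℝ × ℝ × ℝ) (i : Fin 2) : par x i ≠ 0 := by
  intro h
  fin_cases i
  · have e0 : vc 0 x.1 0 = 0 := congrFun h (0 : Fin 2)
    have e1 : vc 1 x.1 0 = 0 := congrFun h (1 : Fin 2)
    simp [vc] at e0 e1
    have := Real.sin_sq_add_cos_sq x.1
    rw [e0, e1] at this
    norm_num at this
  · have e0 : vc 0 x.2.1 x.2.2 = 0 := congrFun h (0 : Fin 3)
    have e1 : vc 1 x.2.1 x.2.2 = 0 := congrFun h (1 : Fin 3)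
    have e2 : vc 2 x.2.1 x.2.2 = 0 := congrFun h (2 : Fin 3)
    simp only [vc, if_true, one_ne_zero, if_false, OfNat.ofNat_ne_zero, OfNat.ofNat_ne_one]
      at e0 e1 e2
    have h1 := Real.sin_sq_add_cos_sq x.2.1
    have h2 := Real.sin_sq_add_cos_sq x.2.2
    have h3 : Real.cos x.2.2 ^ 2 = 0 := by
      have : Real.cos x.2.2 ^ 2 * (Real.sin x.2.1 ^ 2 + Real.cos x.2.1 ^ 2) =
          (Real.cos x.2.2 * Real.sin x.2.1) ^ 2 + (Real.cos x.2.2 * Real.cos x.2.1) ^ 2 := by ring
      rw [h1, e0, e1] at this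
      linarith
    rw [e2, h3] at h2
    norm_num at h2

private theorem par_shift0 (t α s : ℝ) (i : Fin 2) :
    par (t + Real.pi, α, s) i = par (t, α, s) i ∨ par (t + Real.pi, α, s) i = -par (t, α, s) i := by
  fin_cases i
  · right
    funext j
    have := vc_add_pi (j : ℕ) t 0
    rw [neg_zero] at this
    exact this
  · left
    rfl

private theorem par_shift1 (t α s : ℝ) (i : Fin 2) :
    par (t, α + Real.pi, -s) i = par (t, α, s) i ∨
      par (t, α + Real.pi, -s) i = -par (t, α, s) i := by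
  fin_cases i
  · left
    rfl
  · right
    funext j
    exact vc_add_pi (j : ℕ) α s

private theorem contDiff_par : ContDiff ℝ 2 par := by
  rw [contDiff_pi]
  intro i
  rw [contDiff_pi]
  intro j
  unfold par vc
  split_ifs <;> fun_prop

private theorem fderiv_par (t α : ℝ) (a : ℝ × ℝ × ℝ) :
    fderiv ℝ par (t, α, 0) a = dpar (t, α) a := by
  have hd : DifferentiableAt ℝ par (t, α, 0) := (contDiff_par.differentiable (by norm_num)) _
  have h1 : HasDerivAt (fun τ : ℝ => ((t, α, 0) : ℝ × ℝ × ℝ) + τ • a) a 0 := by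
    simpa using ((hasDerivAt_id (0 : ℝ)).smul_const a).const_add ((t, α, 0) : ℝ × ℝ × ℝ)
  have hd' : HasFDerivAt par (fderiv ℝ par (t, α, 0))
      (((t, α, 0) : ℝ × ℝ × ℝ) + (0 : ℝ) • a) := by
    rw [zero_smul, add_zero]
    exact hd.hasFDerivAt
  have h2 : HasDerivAt (fun τ : ℝ => par (((t, α, 0) : ℝ × ℝ × ℝ) + τ • a))
      (fderiv ℝ par (t, α, 0) a) 0 := by
    have h4 := HasFDerivAt.comp_hasDerivAt (0 : ℝ) hd' h1
    exact h4
  have h3 : HasDerivAt (fun τ : ℝ => par (((t, α, 0) : ℝ × ℝ × ℝ) + τ • a))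
      (dpar (t, α) a) 0 := by
    rw [hasDerivAt_pi]
    intro i
    rw [hasDerivAt_pi]
    intro j
    fin_cases i
    · have := hasDerivAt_vc (j : ℕ) t a.1 0
      simp only [mul_zero, add_zero] at this
      exact this
    · exact hasDerivAt_vc (j : ℕ) α a.2.1 a.2.2
  exact h2.unique h3

private theorem dpar_radial {t α : ℝ} {a : ℝ × ℝ × ℝ}
    (h : ∀ i : Fin 2, ∃ c : ℝ, dpar (t, α) a i = c • par (t, α, 0) i) : a = 0 := by
  obtain ⟨c, hc⟩ := h 0
  obtain ⟨d, hd⟩ := h 1
  have e0 : dvc 0 t a.1 0 = c * vc 0 t 0 := congrFun hc (0 : Fin 2)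
  have e1 : dvc 1 t a.1 0 = c * vc 1 t 0 := congrFun hc (1 : Fin 2)
  have d0 : dvc 0 α a.2.1 a.2.2 = d * vc 0 α 0 := congrFun hd (0 : Fin 3)
  have d1 : dvc 1 α a.2.1 a.2.2 = d * vc 1 α 0 := congrFun hd (1 : Fin 3)
  have d2 : dvc 2 α a.2.1 a.2.2 = d * vc 2 α 0 := congrFun hd (2 : Fin 3)
  simp [vc, dvc] at e0 e1 d0 d1 d2
  have key : ∀ u c θ : ℝ, -(u * Real.sin θ) = c * Real.cos θ → u * Real.cos θ = c * Real.sin θ →
      u = 0 := by
    intro u c θ h1 h2
    have := Real.sin_sq_add_cos_sq θ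
    linear_combination (-u) * this - Real.sin θ * h1 + Real.cos θ * h2
  exact Prod.ext (key _ _ _ e0 e1) (Prod.ext (key _ _ _ d0 d1) d2)

private theorem point_par_ne (t α β : ℝ) : point (n := dims) (par (t, α, 0)) (par_ne _) ≠
    point (par (t + Real.pi / 2, β, 0)) (par_ne _) := by
  intro h
  have h0 := congrFun h 0
  unfold point at h0
  rw [Projectivization.mk_eq_mk_iff'] at h0
  obtain ⟨c, hc⟩ := h0
  have e0 : c * vc 0 (t + Real.pi / 2) 0 = vc 0 t 0 := congrFun hc (0 : Fin 2)
  have e1 : c * vc 1 (t + Real.pi / 2) 0 = vc 1 t 0 := congrFun hc (1 : Fin 2)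
  simp [vc, Real.cos_add_pi_div_two, Real.sin_add_pi_div_two] at e0 e1
  have h1 := Real.sin_sq_add_cos_sq t
  have h2 : (1 : ℝ) = 0 := by
    linear_combination (-1) * h1 - Real.cos t * e0 - Real.sin t * e1
  norm_num at h2

/-- The inclusion of a Euclidean space in the nine dimensional one. -/
private theorem exists_inclusion {N : ℕ} (hN : N ≤ 9) :
    ∃ L : EuclideanSpace ℝ (Fin N) →L[ℝ] EuclideanSpace ℝ (Fin 9), Function.Injective L := by
  let L0 : (Fin N → ℝ) →ₗ[ℝ] (Fin 9 → ℝ) := Function.ExtendByZero.linearMap ℝ (Fin.castLE hN)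
  have hL0 : Function.Injective L0 := by
    intro u v huv
    funext i
    have h := congrFun huv (Fin.castLE hN i)
    simpa [L0, Function.ExtendByZero.linearMap_apply,
      (Fin.castLE_injective hN).extend_apply] using h
  refine ⟨LinearMap.toContinuousLinearMap
    (((EuclideanSpace.equiv (Fin 9) ℝ).symm.toLinearEquiv.toLinearMap ∘ₗ L0) ∘ₗ
      (EuclideanSpace.equiv (Fin N) ℝ).toLinearEquiv.toLinearMap), ?_⟩
  intro u v huv
  exact (EuclideanSpace.equiv (Fin N) ℝ).injective
    (hL0 ((EuclideanSpace.equiv (Fin 9) ℝ).symm.injective huv))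

end Proof

/-- **The product of the real projective line and the real projective plane has no totally skew
embedding in a Euclidean space of dimension at most nine**, not even one of class `C^2`. Since
`4 * 3 - 2 * 2 + 1 = 9`, the equality of Q1 fails for `(r_1, r_2) = (0, 1)`. -/
theorem result (m : WithTop ℕ∞) (hm : 2 ≤ m) (N : ℕ)
    (φ : ProdRP ![1, 2] → EuclideanSpace ℝ (Fin N))
    (h : IsTotallySkewEmbedding m ![1, 2] φ) : 10 ≤ N := by
  by_contra hN
  obtain ⟨L, hL⟩ := exists_inclusion (N := N) (by omega)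
  have hopen : IsOpen {x : Coord dims | ∀ i, x i ≠ 0} := by
    have : {x : Coord dims | ∀ i, x i ≠ 0} = ⋂ i, {x : Coord dims | x i ≠ 0} := by
      ext x
      simp
    rw [this]
    exact isOpen_iInter_of_finite fun i => isOpen_ne_fun (continuous_apply i) continuous_const
  have hsm : ContDiffOn ℝ 2 (inCoord φ) {x : Coord dims | ∀ i, x i ≠ 0} := h.smooth.of_le hm
  have hmem : ∀ x : ℝ × ℝ × ℝ, par x ∈ {x : Coord dims | ∀ i, x i ≠ 0} := fun x i => par_ne x i
  have hF : ∀ x : ℝ × ℝ × ℝ, DifferentiableAt ℝ (inCoord φ) (par x) := fun x =>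
    ((hsm.differentiableOn (by norm_num)) _ (hmem x)).differentiableAt (hopen.mem_nhds (hmem x))
  have hP : Differentiable ℝ par := contDiff_par.differentiable (by norm_num)
  have hcomp : ContDiff ℝ 2 (fun x => L (inCoord φ (par x))) :=
    L.contDiff.comp (hsm.comp_contDiff contDiff_par hmem)
  refine Pool.Agent.H45.Skew.core (E := EuclideanSpace ℝ (Fin 9)) (by simp)
    (fun x => L (inCoord φ (par x))) hcomp ?_ ?_ ?_
  · intro t α s
    rw [inCoord_congr φ (par_ne _) (par_ne _) (par_shift0 t α s)]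
  · intro t α s
    rw [inCoord_congr φ (par_ne _) (par_ne _) (par_shift1 t α s)]
  · intro t α β a b c h0
    have hch : ∀ (x : ℝ × ℝ × ℝ) (a : ℝ × ℝ × ℝ),
        fderiv ℝ (fun x => L (inCoord φ (par x))) x a
          = L (fderiv ℝ (inCoord φ) (par x) (fderiv ℝ par x a)) := by
      intro x a
      have h1 : HasFDerivAt (fun x => L (inCoord φ (par x)))
          (L.comp ((fderiv ℝ (inCoord φ) (par x)).comp (fderiv ℝ par x))) x :=
        L.hasFDerivAt.comp x ((hF x).hasFDerivAt.comp x (hP x).hasFDerivAt)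
      rw [h1.fderiv]
      rfl
    rw [hch, hch, fderiv_par, fderiv_par, ← map_sub, ← map_smul, ← map_add, ← map_add] at h0
    have h1 := hL (h0.trans (map_zero L).symm)
    obtain ⟨u, hu⟩ : ∃ u, u = fderiv ℝ (inCoord φ) (par (t, α, 0)) (dpar (t, α) a) := ⟨_, rfl⟩
    obtain ⟨w, hw⟩ : ∃ w, w = fderiv ℝ (inCoord φ) (par (t + Real.pi / 2, β, 0))
      (dpar (t + Real.pi / 2, β) b) := ⟨_, rfl⟩
    rw [← hu, ← hw] at h1
    have hu' : u ∈ (affineTangent φ (par (t, α, 0))).direction := by
      unfold affineTangent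
      rw [AffineSubspace.direction_mk']
      exact ⟨_, hu.symm⟩
    have hw' : w ∈ (affineTangent φ (par (t + Real.pi / 2, β, 0))).direction := by
      unfold affineTangent
      rw [AffineSubspace.direction_mk']
      exact ⟨_, hw.symm⟩
    have hp : inCoord φ (par (t, α, 0)) ∈ affineTangent φ (par (t, α, 0)) :=
      AffineSubspace.self_mem_mk' _ _
    have hq : inCoord φ (par (t + Real.pi / 2, β, 0)) ∈
        affineTangent φ (par (t + Real.pi / 2, β, 0)) :=
      AffineSubspace.self_mem_mk' _ _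
    obtain ⟨hs1, hs2⟩ := h.skew (par (t, α, 0)) (par (t + Real.pi / 2, β, 0)) (par_ne _)
      (par_ne _) (fun he => point_par_ne t α β (h.injective he))
    have hc : c = 0 := by
      by_contra hc
      have hmem1 : (-c⁻¹) • u +ᵥ inCoord φ (par (t, α, 0)) ∈ affineTangent φ (par (t, α, 0)) :=
        AffineSubspace.vadd_mem_of_mem_direction (Submodule.smul_mem _ _ hu') hp
      have hmem2 : c⁻¹ • w +ᵥ inCoord φ (par (t + Real.pi / 2, β, 0)) ∈
          affineTangent φ (par (t + Real.pi / 2, β, 0)) :=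
        AffineSubspace.vadd_mem_of_mem_direction (Submodule.smul_mem _ _ hw') hq
      have heq : (-c⁻¹) • u +ᵥ inCoord φ (par (t, α, 0)) =
          c⁻¹ • w +ᵥ inCoord φ (par (t + Real.pi / 2, β, 0)) := by
        rw [vadd_eq_add, vadd_eq_add]
        have h2 := congrArg (fun v => c⁻¹ • v) h1
        simp only [smul_add, smul_zero, smul_smul, inv_mul_cancel₀ hc, one_smul] at h2
        rw [neg_smul]
        have h3 : c⁻¹ • w + inCoord φ (par (t + Real.pi / 2, β, 0)) -
            (-(c⁻¹ • u) + inCoord φ (par (t, α, 0))) = 0 := by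
          rw [← h2]
          abel
        exact (sub_eq_zero.mp h3).symm
      have : (-c⁻¹) • u +ᵥ inCoord φ (par (t, α, 0)) ∈
          (affineTangent φ (par (t, α, 0)) : Set (EuclideanSpace ℝ (Fin N))) ∩
            affineTangent φ (par (t + Real.pi / 2, β, 0)) := ⟨hmem1, by rw [heq]; exact hmem2⟩
      rw [hs1] at this
      exact this
    rw [hc, zero_smul, add_zero] at h1
    have huw : u = -w := eq_neg_of_add_eq_zero_left h1
    have hu0 : u = 0 := by
      have : u ∈ (affineTangent φ (par (t, α, 0))).direction ⊓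
          (affineTangent φ (par (t + Real.pi / 2, β, 0))).direction :=
        ⟨hu', by rw [huw]; exact Submodule.neg_mem _ hw'⟩
      rw [hs2] at this
      exact (Submodule.mem_bot ℝ).mp this
    have hw0 : w = 0 := by
      rw [hu0] at huw
      exact neg_eq_zero.mp huw.symm
    exact ⟨dpar_radial (h.immersion _ (par_ne _) _ (hu.symm.trans hu0)),
      dpar_radial (h.immersion _ (par_ne _) _ (hw.symm.trans hw0)), hc⟩

end Pool.Agent.Results.MP_dfaa5d_gt.LineTimesPlane
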